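import Pool.Agent.H94.CB.M187
import Pool.Agent.H94.CB.M188
import Pool.Agent.H94.CB.M190

/-!
# LR LogFn: the logarithm of a function which is near `1` in the strip

* `extend`: extension over the points of `B`.
* `log_fn`: the logarithm, with polynomial growth (Borel-Carathéodory on the balls `ball (ctr σ ρ s) s`).
-/

set_option autoImplicit false

open Topology Filter Metric

noncomputable section

namespace Pool.Agent.H62.LR

attribute [-instance] ProperSMul.toContinuousSMul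

open Pool.Agent.H87.LU (Gd HP ctr ball_ctr mem_ball_ctr ctr_re isOpen_HP convex_HP HP_anti gd_notMem isClosed_gd)

variable {p : ℝ} {B : Set ℂ} {δ W : ℝ} {𝓛 : Set (ℂ → ℂ)} {C A : Set ℂ}

/-- the other bad points are far away -/
theorem BaseD.notMem (h : BaseD p B δ W 𝓛 C A) {b z : ℂ} (hb : b ∈ B) (hz : z ∈ ball b (4 * δ)) (hzb : z ≠ b) : z ∉ B := by
  intro hzB
  have h1 := h.B_sep z hzB b hb hzb
  rw [mem_ball, dist_eq_norm] at hz
  have := h.δ_pos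
  linarith

theorem BaseD.mem_gd (h : BaseD p B δ W 𝓛 C A) {b z : ℂ} (hb : b ∈ B) (hz : z ∈ ball b (4 * δ)) (hzb : δ ≤ ‖z - b‖) : z ∈ Gd B δ := by
  intro b' hb'
  by_cases hbb : b' = b
  · rw [hbb]
    exact hzb
  · have h1 := h.B_sep b' hb' b hb hbb
    rw [mem_ball, dist_eq_norm] at hz
    have h2 : b' - b = (z - b) - (z - b') := by ring
    rw [h2] at h1
    have h3 := norm_sub_le (z - b) (z - b')
    have := h.δ_pos
    linarith

theorem BaseD.re_le (h : BaseD p B δ W 𝓛 C A) {b z : ℂ} (hb : b ∈ B) (hz : z ∈ ball b (4 * δ)) : |z.re| ≤ W := by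
  rw [mem_ball, dist_eq_norm] at hz
  have h1 := h.B_re b hb
  have h2 := Complex.abs_re_le_norm (z - b)
  rw [Complex.sub_re] at h2
  have h3 : |z.re| ≤ |z.re - b.re| + |b.re| := by
    have := abs_add_le (z.re - b.re) b.re
    rwa [sub_add_cancel] at this
  linarith

theorem BaseD.isClosed (h : BaseD p B δ W 𝓛 C A) : IsClosed B := by
  have hδ := h.δ_pos
  refine isClosed_of_closure_subset fun z hz => ?_
  obtain ⟨b, hb, hd⟩ := Metric.mem_closure_iff.1 hz (2 * δ) (by positivity)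
  by_contra hzB
  have hzb : z ≠ b := by
    rintro rfl
    exact hzB hb
  have hpos : 0 < dist z b := dist_pos.2 hzb
  obtain ⟨b', hb', hd'⟩ := Metric.mem_closure_iff.1 hz (dist z b) hpos
  have hbb : b' ≠ b := by
    rintro rfl
    exact lt_irrefl _ hd'
  have h1 := h.B_sep b' hb' b hb hbb
  rw [← dist_eq_norm] at h1
  have h2 := dist_triangle_left b' b z
  linarith

theorem HP_ball {σ ρ r : ℝ} (hσ : σ = 1 ∨ σ = -1) {b : ℂ} (hb : b ∈ HP σ (ρ + r)) : ball b r ⊆ HP σ ρ := by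
  intro z hz
  rw [mem_ball, dist_eq_norm] at hz
  have h1 := (Complex.abs_im_le_norm (z - b)).trans_lt hz
  rw [Complex.sub_im] at h1
  have h2 : ρ + r < σ * b.im := hb
  show ρ < σ * z.im
  rcases hσ with h3 | h3
  · rw [h3] at h2 ⊢
    linarith [(abs_lt.1 h1).1]
  · rw [h3] at h2 ⊢
    linarith [(abs_lt.1 h1).2]

/-- extension over the points of `B` -/
theorem extend (h : BaseD p B δ W 𝓛 C A) {σ ρ ε : ℝ} (hσ : σ = 1 ∨ σ = -1) (hε : ε ≤ 1 / 2) {Q : ℂ → ℂ} (hQm : ∀ z ∈ HP σ ρ, MeromorphicAt Q z)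
    (hQ : ∀ z ∈ HP σ ρ, z ∉ B → AnalyticAt ℂ Q z ∧ Q z ≠ 0) (h1 : ∀ z ∈ HP σ ρ, z ∈ Gd B δ → |z.re| ≤ W → ‖Q z - 1‖ ≤ ε) :
    ∃ Qt : ℂ → ℂ, (∀ z ∈ HP σ (ρ + 5 * δ), DifferentiableAt ℂ Qt z ∧ Qt z ≠ 0) ∧ (∀ z ∈ HP σ ρ, z ∉ B → Qt z = Q z) ∧
      ∀ z ∈ HP σ (ρ + 5 * δ), |z.re| ≤ W → ‖Qt z - 1‖ ≤ ε := by
  classical
  have hδ := h.δ_pos
  have hex : ∀ b : ℂ, b ∈ B → b ∈ HP σ (ρ + 4 * δ) → ∃ H : ℂ → ℂ, DifferentiableOn ℂ H (ball b (4 * δ)) ∧
      (∀ z ∈ ball b (4 * δ), z ≠ b → H z = Q z) ∧ ∀ z ∈ ball b (4 * δ), ‖H z - 1‖ ≤ ε := by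
    intro b hb hbH
    have hsub := HP_ball hσ hbH
    refine hole hδ hε (fun z hz hzb => hQ z (hsub hz) (h.notMem hb hz hzb)) (hQm b (hsub (mem_ball_self (by positivity)))) fun z hz1 hz2 => ?_
    have hz : z ∈ ball b (4 * δ) := by rwa [mem_ball, dist_eq_norm]
    exact h1 z (hsub hz) (h.mem_gd hb hz hz1) (h.re_le hb hz)
  choose! H hHd hHQ hH1 using hex
  set Qt : ℂ → ℂ := fun z => if z ∈ B then H z z else Q z with hQt
  have hQtB : ∀ b ∈ B, b ∈ HP σ (ρ + 4 * δ) → ∀ z ∈ ball b (4 * δ), Qt z = H b z := by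
    intro b hb hbH z hz
    by_cases hzb : z = b
    · rw [hzb]
      exact if_pos hb
    · rw [hHQ b hb hbH z hz hzb]
      exact if_neg (h.notMem hb hz hzb)
  have hQtn : ∀ z, z ∉ B → Qt z = Q z := fun z hz => if_neg hz
  have hnear : ∀ z ∈ HP σ (ρ + 5 * δ), ∀ b ∈ B, ‖z - b‖ < δ → b ∈ HP σ (ρ + 4 * δ) ∧ z ∈ ball b (4 * δ) := by
    intro z hz b hb hzb
    refine ⟨?_, by rw [mem_ball, dist_eq_norm]; linarith⟩
    have h2 : z ∈ HP σ ((ρ + 4 * δ) + δ) := by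
      have e : ρ + 5 * δ = (ρ + 4 * δ) + δ := by ring
      rwa [← e]
    refine HP_ball hσ h2 ?_
    rw [mem_ball, dist_comm, dist_eq_norm]
    exact hzb
  have hHP : HP σ (ρ + 5 * δ) ⊆ HP σ ρ := HP_anti (by linarith)
  have hone : ∀ z ∈ HP σ (ρ + 5 * δ), |z.re| ≤ W → ‖Qt z - 1‖ ≤ ε := by
    intro z hz hzW
    by_cases hG : z ∈ Gd B δ
    · rw [hQtn z (gd_notMem hδ hG)]
      exact h1 z (hHP hz) hG hzW
    · have h2 : ∃ b ∈ B, ‖z - b‖ < δ := by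
        by_contra hcon
        push Not at hcon
        exact hG hcon
      obtain ⟨b, hb, hzb⟩ := h2
      obtain ⟨h3, h4⟩ := hnear z hz b hb hzb
      rw [hQtB b hb h3 z h4]
      exact hH1 b hb h3 z h4
  refine ⟨Qt, fun z hz => ⟨?_, ?_⟩, fun z _ hzB => hQtn z hzB, hone⟩
  · by_cases hzB : z ∈ B
    · obtain ⟨h3, h4⟩ := hnear z hz z hzB (by rw [sub_self, norm_zero]; exact hδ)
      have h5 : Qt =ᶠ[𝓝 z] H z := by
        filter_upwards [isOpen_ball.mem_nhds h4] with w hw using hQtB z hzB h3 w hw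
      exact h5.differentiableAt_iff.2 ((hHd z hzB h3).differentiableAt (isOpen_ball.mem_nhds h4))
    · have h5 : Qt =ᶠ[𝓝 z] Q := by
        filter_upwards [h.isClosed.isOpen_compl.mem_nhds hzB] with w hw using hQtn w hw
      exact h5.differentiableAt_iff.2 (hQ z (hHP hz) hzB).1.differentiableAt
  · by_cases hzB : z ∈ B
    · intro h0
      have h3 := hone z hz (h.re_le hzB (mem_ball_self (by positivity)))
      rw [h0, zero_sub, norm_neg, norm_one] at h3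
      linarith
    · rw [hQtn z hzB]
      exact (hQ z (hHP hz) hzB).2

/-- a continuous function with values in `2 π i ℤ` on a convex set -/
theorem exp_const {S : Set ℂ} (hS : Convex ℝ S) {D : ℂ → ℂ} (hD : ContinuousOn D S) (h1 : ∀ z ∈ S, Complex.exp (D z) = 1) {z₀ : ℂ} (hz₀ : z₀ ∈ S)
    (h0 : D z₀ = 0) {z : ℂ} (hz : z ∈ S) : D z = 0 := by
  have hpi := Real.pi_pos
  have hseg : ∀ t ∈ Set.uIcc (0 : ℝ) 1, z₀ + (t : ℂ) * (z - z₀) ∈ S := by
    intro t ht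
    rw [Set.uIcc_of_le zero_le_one] at ht
    have h2 := hS hz₀ hz (show 0 ≤ 1 - t by linarith [ht.2]) ht.1 (by ring)
    have h3 : z₀ + (t : ℂ) * (z - z₀) = (1 - t) • z₀ + t • z := by
      simp only [Complex.real_smul]
      push_cast
      ring
    rw [h3]
    exact h2
  have hc : ContinuousOn (fun t : ℝ => (D (z₀ + (t : ℂ) * (z - z₀))).im) (Set.uIcc 0 1) := by
    refine Complex.continuous_im.comp_continuousOn (hD.comp ?_ hseg)
    exact (Continuous.continuousOn (by fun_prop))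
  have hval : ∀ w ∈ S, ∃ n : ℤ, D w = n * (2 * Real.pi * Complex.I) := fun w hw => Complex.exp_eq_one_iff.1 (h1 w hw)
  obtain ⟨n, hn⟩ := hval z hz
  by_contra hne
  have hn0 : n ≠ 0 := by
    rintro rfl
    rw [Int.cast_zero, zero_mul] at hn
    exact hne hn
  have him : (D z).im = n * (2 * Real.pi) := by
    rw [hn]
    simp
  have hkey := intermediate_value_uIcc hc
  simp only [Complex.ofReal_zero, zero_mul, add_zero, Complex.ofReal_one, one_mul, add_sub_cancel, h0, Complex.zero_im, him] at hkey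
  have hpos : ∃ y ∈ Set.uIcc (0 : ℝ) (n * (2 * Real.pi)), |y| = Real.pi := by
    rcases lt_or_gt_of_ne hn0 with h2 | h2
    · refine ⟨-Real.pi, ?_, by rw [abs_neg, abs_of_pos hpi]⟩
      have h3 : (n : ℝ) ≤ -1 := by exact_mod_cast (by omega : n ≤ -1)
      have h4 := mul_le_mul_of_nonneg_right h3 (show 0 ≤ 2 * Real.pi by positivity)
      rw [Set.mem_uIcc]
      right
      constructor <;> linarith
    · refine ⟨Real.pi, ?_, abs_of_pos hpi⟩
      have h3 : (1 : ℝ) ≤ n := by exact_mod_cast (by omega : 1 ≤ n)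
      have h4 := mul_le_mul_of_nonneg_right h3 (show 0 ≤ 2 * Real.pi by positivity)
      rw [Set.mem_uIcc]
      left
      constructor <;> linarith
  obtain ⟨y, hy, hyabs⟩ := hpos
  obtain ⟨t, ht, hty⟩ := hkey hy
  obtain ⟨m, hm⟩ := hval _ (hseg t ht)
  have h4 : y = m * (2 * Real.pi) := by
    rw [← hty]
    show (D (z₀ + (t : ℂ) * (z - z₀))).im = _
    rw [hm]
    simp
  rw [h4, abs_mul, abs_of_pos (show 0 < 2 * Real.pi by positivity)] at hyabs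
  have h5 : |(m : ℝ)| = 1 / 2 := by
    have h6 : |(m : ℝ)| * 2 = 1 := by
      have h7 : (|(m : ℝ)| * 2) * Real.pi = 1 * Real.pi := by linarith
      exact mul_right_cancel₀ hpi.ne' h7
    linarith
  rw [← Int.cast_abs] at h5
  have h6 : (2 * |m| : ℤ) = 1 := by
    have h7 : (2 : ℝ) * ((|m| : ℤ) : ℝ) = 1 := by rw [h5]; norm_num
    exact_mod_cast h7
  omega

/-- **The logarithm.** -/
theorem log_fn (h : BaseD p B δ W 𝓛 C A) {σ ρ : ℝ} (hσ : σ = 1 ∨ σ = -1) {Q : ℂ → ℂ} (hQm : ∀ z ∈ HP σ ρ, MeromorphicAt Q z)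
    (hQ : ∀ z ∈ HP σ ρ, z ∉ B → AnalyticAt ℂ Q z ∧ Q z ≠ 0) (h1 : ∀ z ∈ HP σ ρ, z ∈ Gd B δ → |z.re| ≤ W → ‖Q z - 1‖ ≤ 1 / 2)
    {M : ℝ} {k : ℕ} (hM : 0 ≤ M) (hg : ∀ z ∈ HP σ ρ, W < |z.re| → Real.log ‖Q z‖ ≤ M * (1 + ‖z‖) ^ k) :
    ∃ (J : ℂ → ℂ) (ρ' M' : ℝ) (k' : ℕ), ρ ≤ ρ' ∧ 0 ≤ M' ∧ DifferentiableOn ℂ J (HP σ ρ') ∧ (∀ z ∈ HP σ ρ', z ∉ B → Complex.exp (J z) = Q z) ∧
      (∀ z ∈ HP σ ρ', |z.re| ≤ W → ‖J z‖ < 2) ∧ ∀ z ∈ HP σ ρ', ‖J z‖ ≤ M' * (1 + ‖z‖) ^ k' := by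
  have hδ := h.δ_pos
  have hW := h.W_pos
  have hσσ : σ * σ = 1 := by rcases hσ with rfl | rfl <;> norm_num
  obtain ⟨Qt, hQt, hQtQ, hQt1⟩ := extend h hσ le_rfl hQm hQ h1
  set ρ₁ : ℝ := ρ + 5 * δ with hρ₁
  have hρρ₁ : ρ ≤ ρ₁ := by
    rw [hρ₁]
    linarith
  clear_value ρ₁
  set V : Set ℂ := HP σ ρ₁ with hV
  have hVo : IsOpen V := isOpen_HP σ ρ₁
  have hVc : Convex ℝ V := convex_HP σ ρ₁
  set z₀ : ℂ := ((σ * (ρ₁ + 1) : ℝ) : ℂ) * Complex.I with hz₀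
  have hz₀im : z₀.im = σ * (ρ₁ + 1) := by
    rw [hz₀, Complex.mul_im, Complex.ofReal_re, Complex.ofReal_im, Complex.I_re, Complex.I_im]
    ring
  have hz₀re : z₀.re = 0 := by
    rw [hz₀]
    simp
  clear_value z₀
  have hz₀V : z₀ ∈ V := by
    show ρ₁ < σ * z₀.im
    rw [hz₀im, ← mul_assoc, hσσ]
    linarith
  obtain ⟨G, hG, hGe⟩ := Pool.Agent.H24.Growth.exists_log hVo hVc ⟨z₀, hz₀V⟩ (fun z hz => (hQt z hz).1.differentiableWithinAt) fun z hz => (hQt z hz).2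
  set J : ℂ → ℂ := fun z => G z - G z₀ + Complex.log (Qt z₀) with hJ
  have hJd : DifferentiableOn ℂ J V := (hG.sub_const _).add_const _
  clear_value J
  have hJe : ∀ z ∈ V, Complex.exp (J z) = Qt z := by
    intro z hz
    rw [hJ]
    simp only
    rw [Complex.exp_add, Complex.exp_sub, hGe z hz, hGe z₀ hz₀V, Complex.exp_log (hQt z₀ hz₀V).2, div_mul_cancel₀ _ (hQt z₀ hz₀V).2]
  -- in the strip
  set St : Set ℂ := V ∩ {z : ℂ | |z.re| ≤ W} with hSt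
  have hStc : Convex ℝ St := by
    refine hVc.inter ?_
    have h2 : {z : ℂ | |z.re| ≤ W} = {z : ℂ | z.re ≤ W} ∩ {z : ℂ | -W ≤ z.re} := by
      ext z
      simp only [Set.mem_ofPred_eq, Set.mem_inter_iff, abs_le]
      tauto
    rw [h2]
    exact (convex_halfSpace_re_le W).inter (convex_halfSpace_re_ge (-W))
  have hz₀S : z₀ ∈ St := ⟨hz₀V, by rw [Set.mem_ofPred_eq, hz₀re, abs_zero]; exact hW.le⟩
  have hslit : ∀ z ∈ St, Qt z ∈ Complex.slitPlane := by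
    intro z hz
    left
    have h2 := (Complex.abs_re_le_norm (Qt z - 1)).trans (hQt1 z hz.1 hz.2)
    rw [Complex.sub_re, Complex.one_re] at h2
    linarith [(abs_le.1 h2).1]
  have hJlog : ∀ z ∈ St, J z = Complex.log (Qt z) := by
    intro z hz
    have h2 := exp_const (D := fun z => J z - Complex.log (Qt z)) hStc ?_ (fun w hw => ?_) hz₀S ?_ hz
    · exact sub_eq_zero.1 h2
    · intro w hw
      have h3 : ContinuousAt J w := (hJd.differentiableAt (hVo.mem_nhds hw.1)).continuousAt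
      have h4 : ContinuousAt (fun z => Complex.log (Qt z)) w := ((hQt w hw.1).1.continuousAt).clog (hslit w hw)
      exact (h3.sub h4).continuousWithinAt
    · show Complex.exp (J w - Complex.log (Qt w)) = 1
      rw [Complex.exp_sub, hJe w hw.1, Complex.exp_log (hQt w hw.1).2, div_self (hQt w hw.1).2]
    · simp only [hJ]
      ring
  have hJ2 : ∀ z ∈ St, ‖J z‖ < 2 := by
    intro z hz
    have h2 := hQt1 z hz.1 hz.2
    have h3 := Complex.norm_log_one_add_half_le_self h2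
    rw [add_sub_cancel] at h3
    rw [hJlog z hz]
    linarith
  -- the real part
  have hre : ∀ z ∈ V, (J z).re ≤ M * (1 + ‖z‖) ^ k + 1 := by
    intro z hz
    have h2 : (J z).re = Real.log ‖Qt z‖ := by
      rw [← hJe z hz, Complex.norm_exp, Real.log_exp]
    have h3 : 0 ≤ M * (1 + ‖z‖) ^ k := by positivity
    rcases le_or_gt |z.re| W with h4 | h4
    · have h5 := (Complex.re_le_norm (J z)).trans (hJ2 z ⟨hz, h4⟩).le
      have h6 := hQt1 z hz h4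
      rw [h2]
      have h7 : ‖Qt z‖ ≤ 3 / 2 := by
        have := norm_add_le (Qt z - 1) 1
        rw [sub_add_cancel, norm_one] at this
        linarith
      have h8 : Real.log ‖Qt z‖ ≤ ‖Qt z‖ - 1 := Real.log_le_sub_one_of_pos (norm_pos_iff.2 (hQt z hz).2)
      linarith
    · have h5 : z ∉ B := by
        intro hzB
        have := h.B_re z hzB
        linarith
      have hzρ : z ∈ HP σ ρ := HP_anti hρρ₁ hz
      rw [h2, hQtQ z hzρ h5]
      linarith [hg z hzρ h4]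
  set S₀ : ℝ := 4 + 2 * ρ₁ ^ 2 with hS₀
  have hS₀4 : 4 ≤ S₀ := by
    rw [hS₀]
    linarith [sq_nonneg ρ₁]
  clear_value S₀
  have hS₀pos : 0 < S₀ := lt_of_lt_of_le (by norm_num) hS₀4
  set P : ℝ := 1 + |ρ₁| + 2 * S₀ with hP
  have hP0 : 0 ≤ P := by positivity
  clear_value P
  refine ⟨J, ρ₁ + 1, 4 * S₀ * (M * P ^ k) + 12 * S₀, 2 * k + 2, by linarith, by positivity, hJd.mono (HP_anti (by linarith)), fun z hz hzB => ?_,
    fun z hz hzW => hJ2 z ⟨HP_anti (by linarith) hz, hzW⟩, fun z hz => ?_⟩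
  · have h2 : z ∈ V := HP_anti (by linarith) hz
    rw [hJe z h2, hQtQ z (HP_anti hρρ₁ h2) hzB]
  -- growth
  have hz' : ρ₁ + 1 < σ * z.im := hz
  set y : ℝ := σ * z.im - ρ₁ with hy
  have hy1 : 1 ≤ y := by
    rw [hy]
    linarith
  clear_value y
  set s : ℝ := z.re ^ 2 + y ^ 2 + 1 with hs
  have hs1 : 1 ≤ s := by
    rw [hs]
    linarith [sq_nonneg z.re, sq_nonneg y]
  have hs0 : 0 < s := by linarith
  clear_value s
  set c : ℂ := ctr σ ρ₁ s with hc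
  set r : ℝ := ‖z - c‖ with hr
  have hr0 : 0 ≤ r := norm_nonneg _
  clear_value r
  have hr2 : r ^ 2 = z.re ^ 2 + (y - s) ^ 2 := by
    rw [hr, Complex.sq_norm, Complex.normSq_apply, Complex.sub_re, Complex.sub_im, hc, ctr_re, Pool.Agent.H87.LU.ctr_im, sub_zero]
    have h3 : (z.im - σ * (ρ₁ + s)) * (z.im - σ * (ρ₁ + s)) = (σ * z.im - (ρ₁ + s)) ^ 2 := by
      have h4 : σ ^ 2 = 1 := by rw [pow_two]; exact hσσ
      calc (z.im - σ * (ρ₁ + s)) * (z.im - σ * (ρ₁ + s)) = z.im ^ 2 - 2 * σ * z.im * (ρ₁ + s) + σ ^ 2 * (ρ₁ + s) ^ 2 := by ring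
        _ = σ ^ 2 * z.im ^ 2 - 2 * σ * z.im * (ρ₁ + s) + (ρ₁ + s) ^ 2 := by rw [h4]; ring
        _ = _ := by ring
    rw [h3, hy]
    ring
  have hsr : s + 1 ≤ s ^ 2 - r ^ 2 := by
    rw [hr2]
    have h5 : z.re ^ 2 + y ^ 2 = s - 1 := by
      rw [hs]
      ring
    have h6 : s ≤ y * s := le_mul_of_one_le_left hs0.le hy1
    have h7 : (y - s) ^ 2 = y ^ 2 - 2 * (y * s) + s ^ 2 := by ring
    rw [h7]
    linarith
  have hrs : r < s := lt_of_pow_lt_pow_left₀ 2 hs0.le (by linarith)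
  have hgap : 1 / 2 ≤ s - r := by
    have h5 : (s - r) * (s + r) = s ^ 2 - r ^ 2 := by ring
    by_contra hcon
    push Not at hcon
    have h6 := mul_le_mul_of_nonneg_right hcon.le (show 0 ≤ s + r by linarith)
    linarith
  have hball : ball c s ⊆ V := ball_ctr hσ
  clear_value c
  have hcn : ‖c‖ ≤ |ρ₁| + s := by
    have h5 : ‖c‖ = |σ * (ρ₁ + s)| := by
      rw [hc]
      unfold ctr
      rw [norm_mul, Complex.norm_I, mul_one, Complex.norm_real, Real.norm_eq_abs]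
    rw [h5, abs_mul]
    have h6 : |σ| = 1 := by rcases hσ with h7 | h7 <;> rw [h7] <;> norm_num
    rw [h6, one_mul]
    exact (abs_add_le _ _).trans (by rw [abs_of_pos hs0])
  set M₀ : ℝ := M * (1 + |ρ₁| + 2 * s) ^ k + 1 with hM₀
  have hM₀0 : 0 < M₀ := by positivity
  clear_value M₀
  have hcV : c ∈ V := hball (mem_ball_self hs0)
  have hBC := Complex.borelCaratheodory (f := fun w => J (c + w)) (M := M₀) (R := s) (z := z - c) hM₀0
    (fun w hw => by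
      have h5 : c + w ∈ V := hball (by rw [mem_ball, dist_eq_norm, add_sub_cancel_left]; rwa [mem_ball_zero_iff] at hw)
      exact ((hJd.differentiableAt (hVo.mem_nhds h5)).comp w ((differentiableAt_const c).add differentiableAt_id)).differentiableWithinAt)
    (fun w hw => by
      rw [mem_ball_zero_iff] at hw
      have h5 : c + w ∈ V := hball (by rw [mem_ball, dist_eq_norm, add_sub_cancel_left]; exact hw)
      show (J (c + w)).re ≤ M₀
      refine (hre _ h5).trans ?_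
      rw [hM₀]
      have h6 : ‖c + w‖ ≤ |ρ₁| + 2 * s := (norm_add_le _ _).trans (by linarith)
      have h7 : (1 + ‖c + w‖) ^ k ≤ (1 + |ρ₁| + 2 * s) ^ k := pow_le_pow_left₀ (by positivity) (by linarith) k
      linarith [mul_le_mul_of_nonneg_left h7 hM]) hs0 (by rw [mem_ball_zero_iff, ← hr]; exact hrs)
  simp only [add_sub_cancel, add_zero] at hBC
  rw [← hr] at hBC
  have hJc : ‖J c‖ ≤ 2 := (hJ2 c ⟨hcV, by rw [Set.mem_ofPred_eq, hc, ctr_re, abs_zero]; exact hW.le⟩).le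
  have hden : 0 < s - r := by linarith
  have h6 : 2 * M₀ * r / (s - r) ≤ 4 * M₀ * s := by
    rw [div_le_iff₀ hden]
    have h7 : 2 * M₀ * r ≤ 2 * M₀ * s := mul_le_mul_of_nonneg_left hrs.le (by positivity)
    have h8 := mul_le_mul_of_nonneg_left hgap (show 0 ≤ 4 * M₀ * s by positivity)
    linarith
  have h7 : ‖J c‖ * (s + r) / (s - r) ≤ 8 * s := by
    rw [div_le_iff₀ hden]
    have h8 : ‖J c‖ * (s + r) ≤ 2 * (2 * s) := mul_le_mul hJc (by linarith) (by positivity) (by norm_num)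
    have h9 := mul_le_mul_of_nonneg_left hgap (show 0 ≤ 8 * s by positivity)
    linarith
  have hfin : ‖J z‖ ≤ 4 * M₀ * s + 8 * s := hBC.trans (add_le_add h6 h7)
  have hsz : s ≤ S₀ * (1 + ‖z‖) ^ 2 := by
    have h3 : z.re ^ 2 + z.im ^ 2 = ‖z‖ ^ 2 := by
      rw [Complex.sq_norm, Complex.normSq_apply]
      ring
    have h4 : (σ * z.im) ^ 2 = z.im ^ 2 := by
      rw [mul_pow, pow_two σ, hσσ, one_mul]
    have h5 : y ^ 2 ≤ 2 * z.im ^ 2 + 2 * ρ₁ ^ 2 := by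
      have h7 : (σ * z.im - ρ₁) ^ 2 + (σ * z.im + ρ₁) ^ 2 = 2 * (σ * z.im) ^ 2 + 2 * ρ₁ ^ 2 := by ring
      rw [hy]
      linarith [sq_nonneg (σ * z.im + ρ₁)]
    have h6 : 0 ≤ ‖z‖ := norm_nonneg z
    have h7 : (1 + ‖z‖) ^ 2 = 1 + ‖z‖ ^ 2 + 2 * ‖z‖ := by ring
    have h8 : 1 ≤ (1 + ‖z‖) ^ 2 := one_le_pow₀ (by linarith)
    have h9 := mul_le_mul_of_nonneg_left h8 (show 0 ≤ 2 * ρ₁ ^ 2 by positivity)
    have h10 : (4 + 2 * ρ₁ ^ 2) * (1 + ‖z‖) ^ 2 = 4 * (1 + ‖z‖) ^ 2 + 2 * ρ₁ ^ 2 * (1 + ‖z‖) ^ 2 := by ring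
    rw [hs, hS₀, h10]
    linarith [sq_nonneg z.re, sq_nonneg z.im, sq_nonneg ‖z‖]
  have h1z : 1 ≤ (1 + ‖z‖) ^ 2 := one_le_pow₀ (by linarith [norm_nonneg z])
  have hM₀z : M₀ ≤ (M * P ^ k + 1) * (1 + ‖z‖) ^ (2 * k) := by
    have h3 : 1 + |ρ₁| + 2 * s ≤ P * (1 + ‖z‖) ^ 2 := by
      rw [hP]
      have h4 : 1 + |ρ₁| ≤ (1 + |ρ₁|) * (1 + ‖z‖) ^ 2 := le_mul_of_one_le_right (by positivity) h1z
      have h5 : (1 + |ρ₁| + 2 * S₀) * (1 + ‖z‖) ^ 2 = (1 + |ρ₁|) * (1 + ‖z‖) ^ 2 + 2 * (S₀ * (1 + ‖z‖) ^ 2) := by ring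
      rw [h5]
      linarith
    have h4 : (1 + |ρ₁| + 2 * s) ^ k ≤ (P * (1 + ‖z‖) ^ 2) ^ k := pow_le_pow_left₀ (by positivity) h3 k
    rw [mul_pow, ← pow_mul] at h4
    have h5 : 1 ≤ (1 + ‖z‖) ^ (2 * k) := one_le_pow₀ (by linarith [norm_nonneg z])
    rw [hM₀]
    calc M * (1 + |ρ₁| + 2 * s) ^ k + 1 ≤ M * (P ^ k * (1 + ‖z‖) ^ (2 * k)) + (1 + ‖z‖) ^ (2 * k) := by
          have := mul_le_mul_of_nonneg_left h4 hM
          linarith
      _ = _ := by ring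
  calc ‖J z‖ ≤ 4 * M₀ * s + 8 * s := hfin
    _ ≤ 4 * ((M * P ^ k + 1) * (1 + ‖z‖) ^ (2 * k)) * (S₀ * (1 + ‖z‖) ^ 2) + 8 * (S₀ * (1 + ‖z‖) ^ 2) := by
        have hS₀0 : 0 ≤ S₀ := by linarith
        gcongr
    _ ≤ 4 * ((M * P ^ k + 1) * (1 + ‖z‖) ^ (2 * k)) * (S₀ * (1 + ‖z‖) ^ 2) + 8 * (S₀ * (1 + ‖z‖) ^ 2) * (1 + ‖z‖) ^ (2 * k) := by
        have h5 : 1 ≤ (1 + ‖z‖) ^ (2 * k) := one_le_pow₀ (by linarith [norm_nonneg z])
        have h6 : 0 ≤ 8 * (S₀ * (1 + ‖z‖) ^ 2) := by positivity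
        linarith [le_mul_of_one_le_right h6 h5]
    _ = (4 * S₀ * (M * P ^ k) + 12 * S₀) * (1 + ‖z‖) ^ (2 * k + 2) := by
        rw [pow_add]
        ring

end Pool.Agent.H62.LR
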